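import Pool.Agent.Helper63.Levin.OneDim

/-!
# The spectrum of differentiation on the weighted space `E_ω`

The spectrum of `D f = f'` on `E_ω` is the set of all `κ + iτ` such that for all `R, ε > 0` there
is a real `x` with, for all `0 ≤ r ≤ R`,
`exp (κ r) |ω x| ≤ (1 + ε) |ω (x + r)|`, `exp (-κ r) |ω x| ≤ (1 + ε) |ω (x - r)|` and
`exp (|τ| r) |ω x| ≤ (1 + ε) |ω (x + i r)|`;
and `1 + ε` may be replaced by one constant `C` depending on `κ + iτ` only.

This is proved for every `ω` in the setting without zeros in the open upper half-plane; then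
`E_ω` is a Banach space and `D` is bounded. For the other `ω` in the setting, assuming
that `E_ω` is complete and that `D` is bounded on it, the same formula holds with `ω` replaced by
the entire function `v` without zeros in the closed upper half-plane such that `|v| = |ω|` on
the real line and `|v z|` is the largest value of `|f z|` over the unit ball of `E_ω`,
for `Im z ≥ 0`.
-/

namespace Pool.Agent.Results.MP_6d8919_an.SpectrumOfD

open Pool.Agent.Helper63.Levin
open scoped ComplexConjugate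

/-- `g` has exponential type at most `t`. -/
def TypeLE (t : ℝ) (g : ℂ → ℂ) : Prop :=
  ∀ ε : ℝ, 0 < ε → ∃ C : ℝ, ∀ z : ℂ, ‖g z‖ ≤ C * Real.exp ((t + ε) * ‖z‖)

/-- `f` belongs to `E_ω`: it is entire of exponential type at most `σ`, and `f / ω` is bounded on
the real line. -/
def InE (σ : ℝ) (ω f : ℂ → ℂ) : Prop :=
  Differentiable ℂ f ∧ TypeLE σ f ∧ ∃ C : ℝ, ∀ x : ℝ, ‖f x‖ ≤ C * ‖ω x‖

/-- The norm of `E_ω`. -/
noncomputable def wnorm (ω f : ℂ → ℂ) : ℝ := ⨆ x : ℝ, ‖f x / ω x‖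

/-- The setting of the problem: `ω` is entire of exponential type exactly `σ > 0`, it is dominated
from the upper half-plane, and `ω'` belongs to `E_ω`. The domination hypothesis is allowed in
either of the two usual forms, with `-z` or with the conjugate of `z`. -/
structure Setting (σ : ℝ) (ω : ℂ → ℂ) : Prop where
  pos : 0 < σ
  entire : Differentiable ℂ ω
  type_le : TypeLE σ ω
  type_least : ∀ t : ℝ, TypeLE t ω → σ ≤ t
  dom : (∀ z : ℂ, 0 < z.im → ‖ω (-z)‖ ≤ ‖ω z‖) ∨ (∀ z : ℂ, 0 < z.im → ‖ω (conj z)‖ ≤ ‖ω z‖)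
  deriv_mem : InE σ ω (deriv ω)

/-- `E_ω` is complete. -/
def Complete (σ : ℝ) (ω : ℂ → ℂ) : Prop :=
  ∀ u : ℕ → ℂ → ℂ, (∀ n, InE σ ω (u n)) →
    (∀ ε : ℝ, 0 < ε → ∃ N : ℕ, ∀ m n : ℕ, N ≤ m → N ≤ n → wnorm ω (u m - u n) ≤ ε) →
    ∃ f : ℂ → ℂ, InE σ ω f ∧ ∀ ε : ℝ, 0 < ε → ∃ N : ℕ, ∀ n : ℕ, N ≤ n → wnorm ω (u n - f) ≤ ε

/-- Differentiation is a bounded operator from `E_ω` to `E_ω`. -/
def DiffBounded (σ : ℝ) (ω : ℂ → ℂ) : Prop :=
  ∃ K : ℝ, ∀ f : ℂ → ℂ, InE σ ω f → InE σ ω (deriv f) ∧ wnorm ω (deriv f) ≤ K * wnorm ω f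

/-- The spectrum of differentiation on `E_ω`: all `l` for which `f ↦ f' - l f` is not a bijection
of `E_ω` with bounded inverse. -/
def Spec (σ : ℝ) (ω : ℂ → ℂ) : Set ℂ :=
  {l : ℂ | ¬ ∃ M : ℝ, ∀ g : ℂ → ℂ, InE σ ω g →
    ∃ f : ℂ → ℂ, InE σ ω f ∧ (∀ z, deriv f z - l * f z = g z) ∧ wnorm ω f ≤ M * wnorm ω g ∧
      ∀ f₁ : ℂ → ℂ, InE σ ω f₁ → (∀ z, deriv f₁ z - l * f₁ z = g z) → f₁ = f}

/-- Seen from `x`, up to the factor `C` and up to distance `R`, the modulus of `ω` is at least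
`exp (κ s)` at `x + s` for real `s`, and at least `exp (|τ| r)` at `x + i r` for `r ≥ 0`,
where `l = κ + iτ`. -/
def Window (ω : ℂ → ℂ) (l : ℂ) (R C x : ℝ) : Prop :=
  ∀ r : ℝ, 0 ≤ r → r ≤ R →
    Real.exp (l.re * r) * ‖ω x‖ ≤ C * ‖ω (x + r)‖ ∧
    Real.exp (-(l.re * r)) * ‖ω x‖ ≤ C * ‖ω (x - r)‖ ∧
    Real.exp (|l.im| * r) * ‖ω x‖ ≤ C * ‖ω (x + r * Complex.I)‖

/-- The answer: all `l` with windows of every size with factor `1 + ε`, for every `ε > 0`. -/
def Answer (ω : ℂ → ℂ) : Set ℂ :=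
  {l : ℂ | ∀ R : ℝ, 0 < R → ∀ ε : ℝ, 0 < ε → ∃ x : ℝ, Window ω l R (1 + ε) x}

/-- The same set with one constant in place of all the factors `1 + ε`. -/
def Answer' (ω : ℂ → ℂ) : Set ℂ :=
  {l : ℂ | ∃ C : ℝ, ∀ R : ℝ, 0 < R → ∃ x : ℝ, Window ω l R C x}

theorem toCore {σ : ℝ} {ω : ℂ → ℂ} (h : Setting σ ω) (hz : ∀ z : ℂ, 0 < z.im → ω z ≠ 0) :
    ∃ K : ℝ, Wt σ ω K := by
  obtain ⟨_, _, K, hK⟩ := h.deriv_mem
  have hcore : Core ω K := by
    refine ⟨h.entire, ?_, hz, hK⟩
    obtain ⟨C, hC⟩ := h.type_le 1 one_pos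
    exact ⟨C, σ + 1, hC⟩
  have hD : CoreD ω K := by
    rcases h.dom with hd | hd
    · exact dom_of_neg hcore hd
    · exact { toCore := hcore, dom := hd }
  exact ⟨K, { toCoreD := hD, pos := h.pos.le, typ := h.type_le, least := h.type_least }⟩

theorem ofWt {σ : ℝ} {v : ℂ → ℂ} {K : ℝ} (hσ : 0 < σ) (h : Wt σ v K) : Setting σ v where
  pos := hσ
  entire := h.diff
  type_le := h.typ
  type_least := h.least
  dom := Or.inr h.dom
  deriv_mem := (h.D h.W).2

/-- An element of the space in the helper files. -/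
def mkE {σ : ℝ} {ω f : ℂ → ℂ} (hf : InE σ ω f) : ESpace σ ω := ⟨f, hf⟩

theorem complete_iff (σ : ℝ) (ω : ℂ → ℂ) : Complete σ ω ↔ CompleteSpace (ESpace σ ω) := by
  constructor
  · intro h
    apply Metric.complete_of_cauchySeq_tendsto
    intro u hu
    rw [Metric.cauchySeq_iff] at hu
    obtain ⟨f, hf, hlim⟩ := h (fun n => (u n).1) (fun n => (u n).2) (by
      intro ε hε
      obtain ⟨N, hN⟩ := hu ε hε
      refine ⟨N, fun m n hm hn => ?_⟩
      have := hN m hm n hn
      rw [dist_eq_norm] at this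
      exact this.le)
    refine ⟨mkE hf, ?_⟩
    rw [Metric.tendsto_atTop]
    intro ε hε
    obtain ⟨N, hN⟩ := hlim (ε / 2) (by positivity)
    refine ⟨N, fun n hn => ?_⟩
    rw [dist_eq_norm]
    exact lt_of_le_of_lt (hN n hn) (half_lt_self hε)
  · intro hc u hu hcau
    set U : ℕ → ESpace σ ω := fun n => mkE (hu n) with hU
    have hUc : CauchySeq U := by
      rw [Metric.cauchySeq_iff]
      intro ε hε
      obtain ⟨N, hN⟩ := hcau (ε / 2) (by positivity)
      refine ⟨N, fun m hm n hn => ?_⟩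
      rw [dist_eq_norm]
      exact lt_of_le_of_lt (hN m n hm hn) (half_lt_self hε)
    obtain ⟨F, hF⟩ := cauchySeq_tendsto_of_complete hUc
    refine ⟨F.1, F.2, fun ε hε => ?_⟩
    rw [Metric.tendsto_atTop] at hF
    obtain ⟨N, hN⟩ := hF ε hε
    refine ⟨N, fun n hn => ?_⟩
    have := hN n hn
    rw [dist_eq_norm] at this
    exact this.le

theorem spectrum_eq_Spec {σ : ℝ} {ω : ℂ → ℂ} [CompleteSpace (ESpace σ ω)]
    (D : ESpace σ ω →L[ℂ] ESpace σ ω) (hD : ∀ f z, D f z = deriv f z) :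
    spectrum ℂ D = Spec σ ω := by
  ext l
  rw [← not_iff_not, spectrum.notMem_iff]
  change _ ↔ ¬ ¬ _
  rw [not_not]
  have happ : ∀ (f : ESpace σ ω) (z : ℂ), (algebraMap ℂ (ESpace σ ω →L[ℂ] ESpace σ ω) l - D) f z =
      -(deriv f z - l * f z) := by
    intro f z
    have h1 : (algebraMap ℂ (ESpace σ ω →L[ℂ] ESpace σ ω) l - D) f = l • f - D f := by
      simp [Algebra.algebraMap_eq_smul_one]
    rw [h1, ESpace.sub_apply, ESpace.smul_apply, hD]
    ring
  constructor
  · rintro ⟨u, hu⟩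
    refine ⟨‖(↑u⁻¹ : ESpace σ ω →L[ℂ] ESpace σ ω)‖, fun g hg => ?_⟩
    set G : ESpace σ ω := mkE hg with hG
    set f : ESpace σ ω := -((↑u⁻¹ : ESpace σ ω →L[ℂ] ESpace σ ω) G) with hf
    have hinj : ∀ a b : ESpace σ ω, (u : ESpace σ ω →L[ℂ] ESpace σ ω) a =
        (u : ESpace σ ω →L[ℂ] ESpace σ ω) b → a = b := by
      intro a b hab
      have h1 : ∀ c : ESpace σ ω, (↑u⁻¹ : ESpace σ ω →L[ℂ] ESpace σ ω)
          ((u : ESpace σ ω →L[ℂ] ESpace σ ω) c) = c := by
        intro c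
        rw [← mul_apply_eq_comp, Units.inv_mul]
        simp
      rw [← h1 a, ← h1 b, hab]
    have huf : (u : ESpace σ ω →L[ℂ] ESpace σ ω) f = -G := by
      rw [hf, map_neg, ← mul_apply_eq_comp, Units.mul_inv]
      simp
    refine ⟨f.1, f.2, ?_, ?_, ?_⟩
    · intro z
      have h1 := congrArg (fun F : ESpace σ ω => F z) huf
      simp only [hu, happ, ESpace.neg_apply] at h1
      exact neg_injective h1
    · have h1 : ‖f‖ ≤ ‖(↑u⁻¹ : ESpace σ ω →L[ℂ] ESpace σ ω)‖ * ‖G‖ := by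
        rw [hf, norm_neg]
        exact ContinuousLinearMap.le_opNorm _ _
      exact h1
    · intro f₁ hf₁ heq
      have h1 : mkE hf₁ = f := by
        apply hinj
        rw [huf]
        apply ESpace.ext'
        intro z
        rw [hu, happ, ESpace.neg_apply]
        exact congrArg Neg.neg (heq z)
      exact congrArg Subtype.val h1
  · rintro ⟨M, hM⟩
    rw [ContinuousLinearMap.isUnit_iff_bijective]
    constructor
    · intro a b hab
      obtain ⟨f, hf, _, _, huniq⟩ := hM (fun z => deriv a z - l * a z) (by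
        have h1 : (-(algebraMap ℂ (ESpace σ ω →L[ℂ] ESpace σ ω) l - D) a : ESpace σ ω).1 =
            fun z => deriv a z - l * a z := by
          funext z
          have := happ a z
          change -((algebraMap ℂ (ESpace σ ω →L[ℂ] ESpace σ ω) l - D) a z) = _
          rw [this, neg_neg]
        rw [← h1]
        exact (-(algebraMap ℂ (ESpace σ ω →L[ℂ] ESpace σ ω) l - D) a : ESpace σ ω).2)
      have h1 := huniq a.1 a.2 (fun z => rfl)
      have h2 := huniq b.1 b.2 (fun z => by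
        have e1 := congrArg (fun F : ESpace σ ω => F z) hab
        simp only [happ] at e1
        exact (neg_injective e1).symm)
      exact Subtype.ext (h1.trans h2.symm)
    · intro g
      obtain ⟨f, hf, hfe, _, _⟩ := hM g.1 g.2
      refine ⟨-(mkE hf), ?_⟩
      rw [map_neg]
      apply ESpace.ext'
      intro z
      rw [ESpace.neg_apply, happ, neg_neg]
      exact hfe z

/-- **The spectrum of differentiation on `E_ω`.** -/
theorem result (σ : ℝ) (ω : ℂ → ℂ) (h : Setting σ ω) :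
    -- no zeros in the open upper half-plane: completeness, boundedness and the spectrum
    ((∀ z : ℂ, 0 < z.im → ω z ≠ 0) →
      Complete σ ω ∧ DiffBounded σ ω ∧ Spec σ ω = Answer ω ∧ Spec σ ω = Answer' ω) ∧
    -- the general case
    (Complete σ ω → DiffBounded σ ω →
      ∃ v : ℂ → ℂ, Setting σ v ∧ (∀ z : ℂ, 0 ≤ z.im → v z ≠ 0) ∧ (∀ x : ℝ, ‖v x‖ = ‖ω x‖) ∧
        (∀ f : ℂ → ℂ, InE σ ω f → ∀ z : ℂ, 0 ≤ z.im → ‖f z‖ ≤ wnorm ω f * ‖v z‖) ∧
        Spec σ ω = Answer v ∧ Spec σ ω = Answer' v) := by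
  refine ⟨?_, ?_⟩
  · intro hz
    obtain ⟨K, hK⟩ := toCore h hz
    have hc := hK.complete
    have hs := spectrum_eq_Spec hK.D (fun f z => rfl)
    refine ⟨(complete_iff σ ω).2 hc, ⟨Real.exp K, fun f hf => ?_⟩, ?_, ?_⟩
    · refine ⟨(hK.D (mkE hf)).2, ?_⟩
      have h1 : ‖hK.D (mkE hf)‖ ≤ Real.exp K * ‖mkE hf‖ := by
        apply ESpace.norm_le_of (by positivity)
        intro x
        have := hK.deriv_le (mkE hf) x
        rwa [fold_real] at this
      exact h1
    · rw [← hs]; exact hK.spectrum_eq1.1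
    · rw [← hs]; exact hK.spectrum_eq1.2
  · intro hcomp hbdd
    have hc := (complete_iff σ ω).1 hcomp
    obtain ⟨K, hK⟩ := hbdd
    let D : ESpace σ ω →L[ℂ] ESpace σ ω :=
      LinearMap.mkContinuous
        { toFun := fun f => mkE (hK f.1 f.2).1
          map_add' := by
            intro f g
            apply ESpace.ext'
            intro z
            exact deriv_add (f.diff z) (g.diff z)
          map_smul' := by
            intro c f
            apply ESpace.ext'
            intro z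
            exact deriv_const_mul c (f.diff z) }
        K (fun f => (hK f.1 f.2).2)
    have hD : ∀ f z, D f z = deriv f z := fun f z => rfl
    obtain ⟨v, K', hv, hreal, hmaj, h1, -⟩ := general h.pos.le h.entire h.type_le
      h.type_least h.dom hc D hD
    have h2 : Spec σ ω = spectrum ℂ hv.D := by
      rw [← spectrum_eq_Spec D hD, h1, hv.spectrum_eq.1]
    exact ⟨v, ofWt h.pos hv, fun z hz => hv.ne_zero hz, hreal,
      fun f hf z hz => hmaj (mkE hf) z hz,
      h2.trans hv.spectrum_eq1.1, h2.trans hv.spectrum_eq1.2⟩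

end Pool.Agent.Results.MP_6d8919_an.SpectrumOfD
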